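import Pool.Agent.Lib.MP_a9e8ee_lc.EW.Main

/-!
# The set of Erdos-Woods numbers is not definable from addition

For every `m ≥ 1` some residue class `b + 1` modulo `m`, with `b` prime to `m`, contains infinitely many
Erdos-Woods numbers and infinitely many other natural numbers. So the set of Erdos-Woods numbers is not
ultimately periodic, and it is not first-order definable in `(ℕ, +)`.

Idea. If `q` and `r` are primes, `q` divides `r - 1` and `q + r < q ^ 2`, then `q + r` is an Erdos-Woods
number; if `p` is a prime, `p + 1` is not. Infinitely many such pairs with `r ≡ 1` modulo `m` are found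
with the method of Goldfeld for large prime factors of `r - 1` (a theorem of Bombieri-Vinogradov type for
prime moduli and a Brun-Titchmarsh bound, both proved here); the second part is Dirichlet's theorem.
-/

set_option autoImplicit false

namespace Pool.Agent.Results.MP_a9e8ee_lc.NotPresburger

open FirstOrder

/-- No integer strictly inside the interval from `a` to `a + d` is coprime to both endpoints. -/
def NC (a d : ℕ) : Prop :=
  ∀ c, a < c → c < a + d → 1 < Nat.gcd c a ∨ 1 < Nat.gcd c (a + d)

/-- The set of Erdos-Woods numbers. -/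
def E : Set ℕ := {d | 3 ≤ d ∧ ∃ a, NC a d}

theorem result :
    (∀ m : ℕ, 1 ≤ m → ∃ b : ℕ, Nat.Coprime b m ∧
      {d | d ∈ E ∧ d ≡ b + 1 [MOD m]}.Infinite ∧ {d | d ∉ E ∧ d ≡ b + 1 [MOD m]}.Infinite) ∧
    (¬ ∃ k p : ℕ, 0 < p ∧ ∀ x, k ≤ x → (x ∈ E ↔ x + p ∈ E)) ∧
    ¬ (Set.univ : Set ℕ).Definable₁ Language.presburger E :=
  ⟨Pool.Agent.Lib.MP_a9e8ee_lc.EW.class_both, Pool.Agent.Lib.MP_a9e8ee_lc.EW.not_periodic,
    Pool.Agent.Lib.MP_a9e8ee_lc.EW.not_definable⟩

end Pool.Agent.Results.MP_a9e8ee_lc.NotPresburger
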